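import Mathlib
import Pool.Agent.X252.GA

set_option autoImplicit false

namespace Pool.Agent.U935.BA

open TensorProduct Pool.Agent.X252.GA

/-- Tensoring with `ℚ` kills exactly the torsion. -/
lemma tmul_eq_zero_iff {M : Type} [AddCommGroup M] (m : M) :
    (1 : ℚ) ⊗ₜ[ℤ] m = 0 ↔ ∃ k : ℕ, k ≠ 0 ∧ k • m = 0 := by
  have hloc : IsLocalizedModule (nonZeroDivisors ℤ) (TensorProduct.mk ℤ ℚ M 1) :=
    (isLocalizedModule_iff_isBaseChange (nonZeroDivisors ℤ) ℚ _).2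
      (TensorProduct.isBaseChange ℤ M ℚ)
  have h1 := IsLocalizedModule.eq_zero_iff (nonZeroDivisors ℤ) (TensorProduct.mk ℤ ℚ M 1) (m := m)
  rw [TensorProduct.mk_apply] at h1
  rw [h1]
  constructor
  · rintro ⟨⟨s, hs⟩, hsm⟩
    have hs0 : s ≠ 0 := nonZeroDivisors.ne_zero hs
    refine ⟨s.natAbs, Int.natAbs_ne_zero.2 hs0, ?_⟩
    have h2 : s • m = 0 := hsm
    rcases Int.natAbs_eq s with h | h
    · rw [h] at h2
      rwa [natCast_zsmul] at h2
    · rw [h, neg_smul, natCast_zsmul, neg_eq_zero] at h2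
      exact h2
  · rintro ⟨k, hk, hkm⟩
    refine ⟨⟨(k : ℤ), mem_nonZeroDivisors_of_ne_zero (by exact_mod_cast hk)⟩, ?_⟩
    show (k : ℤ) • m = 0
    rw [natCast_zsmul, hkm]

variable {G M : Type} [Group G] [AddCommGroup M]

/-- The rational representation attached to an action on an abelian group. -/
noncomputable def ratRep (ρ : G →* AddMonoid.End M) : G →* Module.End ℚ (ℚ ⊗[ℤ] M) where
  toFun g := (ρ g).toIntLinearMap.baseChange ℚ
  map_one' := by
    rw [map_one]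
    have : (1 : AddMonoid.End M).toIntLinearMap = LinearMap.id := rfl
    rw [this, LinearMap.baseChange_id]
    rfl
  map_mul' g h := by
    rw [map_mul]
    have : (ρ g * ρ h).toIntLinearMap = (ρ g).toIntLinearMap ∘ₗ (ρ h).toIntLinearMap := rfl
    rw [this, LinearMap.baseChange_comp]
    rfl

lemma ratRep_tmul (ρ : G →* AddMonoid.End M) (g : G) (q : ℚ) (m : M) :
    ratRep ρ g (q ⊗ₜ[ℤ] m) = q ⊗ₜ[ℤ] (ρ g m) := by
  show (ρ g).toIntLinearMap.baseChange ℚ (q ⊗ₜ[ℤ] m) = _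
  rw [LinearMap.baseChange_tmul]
  rfl

/-- The annihilator of the rational representation. -/
noncomputable def ann (ρ : G →* AddMonoid.End M) : Ideal (MonoidAlgebra ℚ G) :=
  RingHom.ker (MonoidAlgebra.lift ℚ (Module.End ℚ (ℚ ⊗[ℤ] M)) G (ratRep ρ)).toRingHom

lemma mem_ann (ρ : G →* AddMonoid.End M) (x : MonoidAlgebra ℚ G) :
    x ∈ ann ρ ↔ MonoidAlgebra.lift ℚ (Module.End ℚ (ℚ ⊗[ℤ] M)) G (ratRep ρ) x = 0 := Iff.rfl

lemma ann_mul (ρ : G →* AddMonoid.End M) : ∀ x ∈ ann ρ, ∀ y, x * y ∈ ann ρ := by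
  intro x hx y
  rw [mem_ann] at hx ⊢
  rw [map_mul, hx, zero_mul]

open Classical in
lemma nA_mem [Fintype G] (ρ : G →* AddMonoid.End M) (H : Subgroup G)
    (h : ∀ m : M, ∃ k : ℕ, k ≠ 0 ∧ k • ∑ g : G with g ∈ H, ρ g m = 0) : nA H ∈ ann ρ := by
  rw [mem_ann]
  unfold nA
  rw [map_sum]
  have h0 : ∀ g : G, MonoidAlgebra.lift ℚ (Module.End ℚ (ℚ ⊗[ℤ] M)) G (ratRep ρ)
      (MonoidAlgebra.single g (1 : ℚ)) = ratRep ρ g := by
    intro g
    rw [MonoidAlgebra.lift_single, one_smul]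
  simp only [h0]
  refine LinearMap.ext fun v => ?_
  induction v using TensorProduct.induction_on with
  | zero => simp
  | tmul q m =>
    rw [LinearMap.sum_apply]
    simp only [ratRep_tmul]
    rw [← TensorProduct.tmul_sum]
    have h1 := (tmul_eq_zero_iff (∑ g : G with g ∈ H, ρ g m)).2 (h m)
    have h2 : q ⊗ₜ[ℤ] (∑ g : G with g ∈ H, ρ g m)
        = q • ((1 : ℚ) ⊗ₜ[ℤ] (∑ g : G with g ∈ H, ρ g m)) := by
      rw [TensorProduct.smul_tmul', smul_eq_mul, mul_one]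
    rw [h2, h1, smul_zero]
    rfl
  | add a b ha hb =>
    rw [map_add, ha, hb]
    simp

lemma torsion_of_one (ρ : G →* AddMonoid.End M) (h : (1 : MonoidAlgebra ℚ G) ∈ ann ρ) (m : M) :
    ∃ k : ℕ, k ≠ 0 ∧ k • m = 0 := by
  rw [mem_ann, map_one] at h
  rw [← tmul_eq_zero_iff]
  have := LinearMap.congr_fun h ((1 : ℚ) ⊗ₜ[ℤ] m)
  simpa using this

end Pool.Agent.U935.BA
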