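import Mathlib
import Pool.Agent.N162.BC.Defs

set_option autoImplicit false

namespace Pool.Agent.U935.BA

open FF Pool.Agent.W602.GT Pool.Agent.N162.BC

/-- Zero-cycles are supported on curves, up to torsion: each zero-cycle on `T × Spec Ω` has a nonzero
multiple which is rationally equivalent to a cycle supported on `D × Spec Ω` for a proper closed
subset `D` of the variety `T` with the function field `K`. For a surface `T` and `Ω` algebraically
closed of transcendence degree two over `ℂ` this means that `CH_0(T)` is finite-dimensional. -/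
def BlochHolds (Ω K : Type) [Field Ω] [Algebra ℂ Ω] [Field K] [Algebra ℂ K] : Prop :=
  ∀ c : (K →ₐ[ℂ] Ω) →₀ ℤ, ∃ k : ℕ, k ≠ 0 ∧ k • c ∈ Rat K Ω

/-- The function field of the quotient `T/H`, where `T` has the function field `K`, on which the group
`G` acts, and `H` is a subgroup of `G`. -/
noncomputable def quotientField {G K : Type} [Group G] [Field K] [Algebra ℂ K]
    (a : G →* (K ≃ₐ[ℂ] K)) (H : Subgroup G) : IntermediateField ℂ K :=
  IntermediateField.fixedField (H.map a)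

/-- The subgroups of order `p q` (`p`, `q` prime) and the commutative subgroups are cyclic, and there
is at most one involution. -/
def CyclicSubgroups (G : Type) [Group G] : Prop :=
  (∀ (H : Subgroup G) (p q : ℕ), p.Prime → q.Prime → Nat.card H = p * q → IsCyclic H) ∧
    (∀ H : Subgroup G, (∀ x ∈ H, ∀ y ∈ H, x * y = y * x) → IsCyclic H) ∧
      ∀ x y : G, orderOf x = 2 → orderOf y = 2 → x = y

variable {K₁ K₂ Ω : Type} [Field K₁] [Algebra ℂ K₁] [Field K₂] [Algebra ℂ K₂] [Field Ω]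
  [Algebra ℂ Ω]

lemma comp_symm_injective (e : K₁ ≃ₐ[ℂ] K₂) :
    Function.Injective fun σ : K₁ →ₐ[ℂ] Ω => σ.comp (e.symm : K₂ →ₐ[ℂ] K₁) := by
  intro σ τ h
  ext x
  have := AlgHom.congr_fun h (e x)
  simpa using this

/-- Rational equivalence is transported by isomorphisms of function fields. -/
lemma rat_equiv (e : K₁ ≃ₐ[ℂ] K₂) {c : (K₁ →ₐ[ℂ] Ω) →₀ ℤ} (h : c ∈ Rat K₁ Ω) :
    Finsupp.mapDomain (fun σ : K₁ →ₐ[ℂ] Ω => σ.comp (e.symm : K₂ →ₐ[ℂ] K₁)) c ∈ Rat K₂ Ω := by
  unfold Pool.Agent.N162.BC.Rat at h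
  induction h using AddSubgroup.closure_induction with
  | mem c hc =>
    obtain ⟨M, iM, aM, hFF, τ, f, h1, h2, h3⟩ := hc
    refine AddSubgroup.subset_closure ⟨M, iM, aM, hFF, τ.comp (e.symm : K₂ →+* K₁), f, ?_, h2, ?_⟩
    · intro z
      have : (e.symm : K₂ →+* K₁) (algebraMap ℂ K₂ z) = algebraMap ℂ K₁ z := e.symm.commutes z
      rw [RingHom.comp_apply, this, h1]
    · intro σ
      have hσ : σ = (σ.comp (e : K₁ →ₐ[ℂ] K₂)).comp (e.symm : K₂ →ₐ[ℂ] K₁) := by
        ext x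
        simp
      have h4 : Finsupp.mapDomain (fun σ : K₁ →ₐ[ℂ] Ω => σ.comp (e.symm : K₂ →ₐ[ℂ] K₁)) c σ
          = c (σ.comp (e : K₁ →ₐ[ℂ] K₂)) := by
        conv_lhs => rw [hσ]
        exact Finsupp.mapDomain_apply (comp_symm_injective e) c _
      rw [h4, h3]
      have h5 : {v : Place Ω M | CentredAt τ v (σ.comp (e : K₁ →ₐ[ℂ] K₂))}
          = {v : Place Ω M | CentredAt (τ.comp (e.symm : K₂ →+* K₁)) v σ} := by
        ext v
        constructor
        · intro hv x
          have := hv (e.symm x)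
          simpa using this
        · intro hv x
          have := hv (e x)
          simpa using this
      rw [h5]
  | zero =>
    rw [Finsupp.mapDomain_zero]
    exact zero_mem _
  | add x y _ _ hx hy =>
    rw [Finsupp.mapDomain_add]
    exact add_mem hx hy
  | neg x _ hx =>
    have : Finsupp.mapDomain (fun σ : K₁ →ₐ[ℂ] Ω => σ.comp (e.symm : K₂ →ₐ[ℂ] K₁)) (-x)
        = -Finsupp.mapDomain (fun σ : K₁ →ₐ[ℂ] Ω => σ.comp (e.symm : K₂ →ₐ[ℂ] K₁)) x :=
      map_neg (Finsupp.mapDomain.addMonoidHom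
        (fun σ : K₁ →ₐ[ℂ] Ω => σ.comp (e.symm : K₂ →ₐ[ℂ] K₁))) x
    rw [this]
    exact neg_mem hx

/-- The property only depends on the function field up to isomorphism. -/
lemma BlochHolds.of_equiv (e : K₁ ≃ₐ[ℂ] K₂) (h : BlochHolds Ω K₁) : BlochHolds Ω K₂ := by
  intro c
  obtain ⟨k, hk, hc⟩ := h (Finsupp.mapDomain
    (fun σ : K₂ →ₐ[ℂ] Ω => σ.comp (e.symm.symm : K₁ →ₐ[ℂ] K₂)) c)
  refine ⟨k, hk, ?_⟩
  have h1 := rat_equiv e hc
  rw [Finsupp.mapDomain_smul, ← Finsupp.mapDomain_comp] at h1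
  have h2 : (fun σ : K₁ →ₐ[ℂ] Ω => σ.comp (e.symm : K₂ →ₐ[ℂ] K₁)) ∘
      (fun σ : K₂ →ₐ[ℂ] Ω => σ.comp (e.symm.symm : K₁ →ₐ[ℂ] K₂)) = id := by
    funext σ
    ext x
    simp
  rw [h2, Finsupp.mapDomain_id] at h1
  exact h1

end Pool.Agent.U935.BA
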