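import Mathlib
import Pool.Agent.N162.BC.Defs
import Pool.Agent.N162.BC.Pull
import Pool.Agent.Y172.Cov3

set_option autoImplicit false
set_option linter.overlappingInstances false
set_option linter.unusedSectionVars false

namespace Pool.Agent.U935.BA

open FF Pool.Agent.W603.LV Pool.Agent.N162.BC Pool.Agent.W602.GT Pool.Agent.Y172

/-- The geometric genus is zero: the smooth projective varieties of dimension `n` with the function
field `K` have no holomorphic `n`-form except `0`. -/
def GenusZero (n : ℕ) (K : Type) [Field K] [Algebra ℂ K] : Prop :=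
  ∀ ω : (Fin n → Derivation ℂ K K) → K, GlobalForm n ω → ∀ E, ω E = 0

section

variable {L K : Type} [Field L] [Field K] [Algebra ℂ L] [Algebra ℂ K] [Algebra L K]
  [IsScalarTower ℂ L K] [FiniteDimensional L K] {n : ℕ}

/-- Pullbacks of global forms are global forms. -/
theorem pull_global [Algebra.EssFiniteType ℂ L] (hL : Algebra.trdeg ℂ L = n)
    {y : Fin n → L} {E : Fin n → Derivation ℂ L L}
    (hy : IsTranscendenceBasis ℂ y) (hE : ∀ i j, E i (y j) = if i = j then 1 else 0)
    {ω : (Fin n → Derivation ℂ L L) → L} (hω : GlobalForm n ω) :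
    GlobalForm n (stdForm (fun i => algebraMap L K (y i)) (algebraMap L K (ω E))) := by
  classical
  refine ⟨stdForm_pluri _ _, fun Q hQ G hG => ?_⟩
  obtain ⟨P, e, hPQ⟩ := exists_below (K := L) Q
  have hP : Divisorial n P := divisorial_down hPQ hQ
  obtain ⟨yP, EP, i0, hl⟩ := exists_loc hL hP
  choose EP' hEP' using fun i => exists_lift (L := K) hL (EP i)
  rw [Pool.Agent.N162.BC.pluri_eq (hl.bas.algebraMap_comp (A := K)) (lift_dual hl.dual hEP')
    (stdForm_pluri (fun i => algebraMap L K (y i)) (algebraMap L K (ω E))) G]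
  have h1 : stdForm (fun i => algebraMap L K (y i)) (algebraMap L K (ω E)) EP' =
      algebraMap L K (ω EP) := by
    rw [Pool.Agent.N162.BC.pluri_eq hy hE hω.1 EP]
    unfold stdForm
    rw [map_mul, RingHom.map_det]
    congr 2
    ext i j
    rw [RingHom.mapMatrix_apply, Matrix.map_apply, Matrix.of_apply, Matrix.of_apply]
    exact hEP' i (y j)
  rw [h1]
  unfold stdForm
  refine Q.reg_mul ?_ ?_
  · exact hPQ.reg.2 (hω.2 P hP EP hl.pres)
  · have h9 : Ge Q 0 (Matrix.of fun i j => G i ((algebraMap L K ∘ yP) j) :
        Matrix (Fin n) (Fin n) K).det :=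
      det_reg Q _ fun a b => hG a _ (hPQ.reg.2 (hl.reg b))
    exact h9

/-- The geometric genus does not increase under dominant rational maps of finite degree, in the case
of the genus zero. -/
theorem GenusZero.down [Algebra.EssFiniteType ℂ L] (hL : Algebra.trdeg ℂ L = n)
    (h : GenusZero n K) : GenusZero n L := by
  intro ω hω E'
  obtain ⟨y, E, hy, hE⟩ := exists_crd hL
  have h1 := h _ (pull_global (K := K) hL hy hE hω)
  choose F hF using fun i => exists_lift (L := K) hL (E i)
  have h2 := h1 F
  rw [stdForm_dual _ _ (lift_dual hE hF)] at h2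
  have h3 : ω E = 0 := (map_eq_zero _).1 h2
  rw [Pool.Agent.N162.BC.pluri_eq hy hE hω.1 E', h3]
  unfold stdForm
  simp

end

end Pool.Agent.U935.BA
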