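import Mathlib

set_option autoImplicit false

namespace Pool.Agent.U935.BA

variable {K Ω : Type} [Field K] [Algebra ℂ K] [Field Ω] [Algebra ℂ Ω]

lemma finite_dim (H : Subgroup (K ≃ₐ[ℂ] K)) [Finite H] :
    FiniteDimensional (IntermediateField.fixedField H) K :=
  inferInstanceAs (FiniteDimensional (FixedPoints.subfield H K) K)

open Polynomial in
/-- Two points of `T` with the same image in `T/H` differ by an element of `H`. -/
lemma exists_of_restr (H : Subgroup (K ≃ₐ[ℂ] K)) [Finite H] (σ τ : K →ₐ[ℂ] Ω)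
    (h : ∀ x ∈ IntermediateField.fixedField H, σ x = τ x) :
    ∃ g ∈ H, τ = σ.comp (g : K →ₐ[ℂ] K) := by
  classical
  have := Fintype.ofFinite H
  -- pointwise
  have hpt : ∀ x : K, ∃ g : H, τ x = σ (g.1 x) := by
    intro x
    obtain ⟨p, hp⟩ : ∃ p : K[X], p = ∏ g : H, (X - C (g.1 x)) := ⟨_, rfl⟩
    have hfix : ∀ k : H, p.map (k.1 : K →+* K) = p := by
      intro k
      rw [hp, Polynomial.map_prod]
      refine Fintype.prod_equiv (Equiv.mulLeft k) _ _ fun g => ?_
      rw [Polynomial.map_sub, Polynomial.map_X, Polynomial.map_C]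
      rfl
    have hcoef : ∀ n, σ (p.coeff n) = τ (p.coeff n) := by
      intro n
      apply h
      rw [IntermediateField.mem_fixedField_iff]
      intro k hk
      have h1 := congrArg (fun q => q.coeff n) (hfix ⟨k, hk⟩)
      simp only [Polynomial.coeff_map] at h1
      exact h1
    have hmap : p.map (σ : K →+* Ω) = p.map (τ : K →+* Ω) := by
      ext n
      rw [Polynomial.coeff_map, Polynomial.coeff_map]
      exact hcoef n
    have h0 : (p.map (τ : K →+* Ω)).eval (τ x) = 0 := by
      have h1 : (p.map (τ : K →+* Ω)).eval ((τ : K →+* Ω) x) = (τ : K →+* Ω) (p.eval x) := by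
        rw [Polynomial.eval_map, Polynomial.eval₂_at_apply]
      have h2 : p.eval x = 0 := by
        rw [hp, Polynomial.eval_prod]
        refine Finset.prod_eq_zero (Finset.mem_univ (1 : H)) ?_
        simp
      rw [h2, map_zero] at h1
      exact h1
    rw [← hmap, hp, Polynomial.map_prod, Polynomial.eval_prod, Finset.prod_eq_zero_iff] at h0
    obtain ⟨g, -, hg⟩ := h0
    refine ⟨g, ?_⟩
    rw [Polynomial.map_sub, Polynomial.map_X, Polynomial.map_C, Polynomial.eval_sub,
      Polynomial.eval_X, Polynomial.eval_C, sub_eq_zero] at hg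
    exact hg
  obtain ⟨g, hg⟩ := Subspace.exists_eq_top_of_iUnion_eq_univ (k := ℂ) (E := K)
    (p := fun g : H => LinearMap.ker (τ.toLinearMap - (σ.comp (g.1 : K →ₐ[ℂ] K)).toLinearMap)) (by
      rw [Set.eq_univ_iff_forall]
      intro x
      obtain ⟨g, hg⟩ := hpt x
      refine Set.mem_iUnion.2 ⟨g, ?_⟩
      rw [SetLike.mem_coe, LinearMap.mem_ker, LinearMap.sub_apply, sub_eq_zero]
      exact hg)
  refine ⟨g.1, g.2, ?_⟩
  ext x
  have hx : x ∈ LinearMap.ker (τ.toLinearMap - (σ.comp (g.1 : K →ₐ[ℂ] K)).toLinearMap) := by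
    rw [hg]
    exact Submodule.mem_top
  rw [LinearMap.mem_ker, LinearMap.sub_apply, sub_eq_zero] at hx
  exact hx

end Pool.Agent.U935.BA
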