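import Mathlib
import Pool.Agent.U1.BL.Pull
import Pool.Agent.U935.BA.Defs
import Pool.Agent.U935.BA.Torsor
import Pool.Agent.U935.BA.Alg

set_option autoImplicit false

namespace Pool.Agent.U935.BA

open TensorProduct FF Pool.Agent.W602.GT Pool.Agent.N162.BC Pool.Agent.X252.GA Pool.Agent.U1.BL

variable {G K Ω : Type} [Group G] [Field K] [Algebra ℂ K] [Field Ω] [Algebra ℂ Ω]

/-- The action of an automorphism on zero-cycles. -/
noncomputable def shift (g : K ≃ₐ[ℂ] K) :
    ((K →ₐ[ℂ] Ω) →₀ ℤ) →+ ((K →ₐ[ℂ] Ω) →₀ ℤ) :=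
  Finsupp.mapDomain.addMonoidHom fun σ : K →ₐ[ℂ] Ω => σ.comp (g.symm : K →ₐ[ℂ] K)

lemma shift_apply (g : K ≃ₐ[ℂ] K) (c : (K →ₐ[ℂ] Ω) →₀ ℤ) :
    shift g c = Finsupp.mapDomain (fun σ : K →ₐ[ℂ] Ω => σ.comp (g.symm : K →ₐ[ℂ] K)) c := rfl

/-- The action of the group on zero-cycles modulo rational equivalence. -/
noncomputable def act (a : G →* (K ≃ₐ[ℂ] K)) :
    G →* AddMonoid.End (((K →ₐ[ℂ] Ω) →₀ ℤ) ⧸ Rat K Ω) where
  toFun g := QuotientAddGroup.map _ _ (shift (a g)) fun _ hc => rat_equiv (a g) hc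
  map_one' := by
    ext q
    induction q using QuotientAddGroup.induction_on with
    | H c =>
      show (QuotientAddGroup.mk (shift (a 1) c) : ((K →ₐ[ℂ] Ω) →₀ ℤ) ⧸ Rat K Ω) = _
      have h1 : (fun σ : K →ₐ[ℂ] Ω => σ.comp ((a 1).symm : K →ₐ[ℂ] K)) = id := by
        funext σ
        ext x
        rw [map_one]
        rfl
      rw [shift_apply, h1, Finsupp.mapDomain_id]
      rfl
  map_mul' g h := by
    ext q
    induction q using QuotientAddGroup.induction_on with
    | H c =>
      show (QuotientAddGroup.mk (shift (a (g * h)) c) : ((K →ₐ[ℂ] Ω) →₀ ℤ) ⧸ Rat K Ω)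
        = QuotientAddGroup.mk (shift (a g) (shift (a h) c))
      have h1 : (fun σ : K →ₐ[ℂ] Ω => σ.comp ((a (g * h)).symm : K →ₐ[ℂ] K))
          = (fun σ : K →ₐ[ℂ] Ω => σ.comp ((a g).symm : K →ₐ[ℂ] K)) ∘
            (fun σ : K →ₐ[ℂ] Ω => σ.comp ((a h).symm : K →ₐ[ℂ] K)) := by
        funext σ
        ext x
        rw [map_mul]
        rfl
      rw [shift_apply, shift_apply, shift_apply, h1, Finsupp.mapDomain_comp]

lemma act_mk (a : G →* (K ≃ₐ[ℂ] K)) (g : G) (c : (K →ₐ[ℂ] Ω) →₀ ℤ) :
    act a g (QuotientAddGroup.mk c : ((K →ₐ[ℂ] Ω) →₀ ℤ) ⧸ Rat K Ω)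
      = QuotientAddGroup.mk (shift (a g) c) := rfl

lemma finite_map [Finite G] (a : G →* (K ≃ₐ[ℂ] K)) (H : Subgroup G) : Finite (H.map a) :=
  ((H : Set G).toFinite.image a).to_subtype

lemma finite_quot [Finite G] (a : G →* (K ≃ₐ[ℂ] K)) (H : Subgroup G) :
    FiniteDimensional (quotientField a H) K := by
  have := finite_map a H
  exact finite_dim (H.map a)

open Classical in
/-- The sum over the subgroup is the preimage of the direct image on the quotient. -/
lemma sum_shift [Fintype G] (a : G →* (K ≃ₐ[ℂ] K)) (ha : Function.Injective a) (H : Subgroup G)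
    (c : (K →ₐ[ℂ] Ω) →₀ ℤ) (σ : K →ₐ[ℂ] Ω) :
    (∑ g : G with g ∈ H, shift (a g) c) σ
      = Finsupp.mapDomain (restr (quotientField a H) Ω) c (restr (quotientField a H) Ω σ) := by
  have := finite_map a H
  have := finite_quot a H
  induction c using Finsupp.induction_linear with
  | zero => simp [shift_apply]
  | add x y hx hy =>
    simp only [map_add, Finset.sum_add_distrib, Finsupp.add_apply, hx, hy, Finsupp.mapDomain_add]
  | single τ k =>
    rw [Finsupp.finsetSum_apply]
    simp only [shift_apply, Finsupp.mapDomain_single]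
    by_cases hr : restr (quotientField a H) Ω τ = restr (quotientField a H) Ω σ
    · rw [hr, Finsupp.single_eq_same]
      obtain ⟨g', ⟨h0, hh0, rfl⟩, hg'⟩ := exists_of_restr (H.map a) τ σ (by
        intro x hx
        exact AlgHom.congr_fun hr ⟨x, hx⟩)
      rw [Finset.sum_eq_single h0⁻¹]
      · have : τ.comp ((a h0⁻¹).symm : K →ₐ[ℂ] K) = σ := by
          rw [hg', map_inv]
          rfl
        rw [this, Finsupp.single_eq_same]
      · intro g hg hne
        apply Finsupp.single_eq_of_ne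
        intro heq
        apply hne
        apply ha
        rw [map_inv]
        ext x
        have h1 : τ ((a g).symm x) = τ ((a h0) x) := by
          have h2 := AlgHom.congr_fun heq x
          rw [hg'] at h2
          first
            | exact h2
            | exact h2.symm
        have h3 := τ.toRingHom.injective h1
        have h4 : ∀ y, (a g).symm y = a h0 y := by
          intro y
          apply τ.toRingHom.injective
          have h2 := AlgHom.congr_fun heq y
          rw [hg'] at h2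
          first
            | exact h2
            | exact h2.symm
        have h5 : (a h0)⁻¹ x = a g x := by
          have h6 := h4 (a g x)
          rw [AlgEquiv.symm_apply_apply] at h6
          have h7 : (a h0)⁻¹ (a h0 (a g x)) = a g x := (a h0).symm_apply_apply _
          rw [← h6] at h7
          exact h7
        exact h5.symm
      · intro hn
        exact absurd (Finset.mem_filter.2 ⟨Finset.mem_univ _, H.inv_mem hh0⟩) hn
    · rw [Finsupp.single_eq_of_ne (fun h => hr (by first | exact h | exact h.symm))]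
      refine Finset.sum_eq_zero fun g hg => ?_
      apply Finsupp.single_eq_of_ne
      intro heq
      apply hr
      have heq' : τ.comp ((a g).symm : K →ₐ[ℂ] K) = σ := by
        first
          | exact heq
          | exact heq.symm
      ext x
      rw [restr_apply, restr_apply]
      have h1 := AlgHom.congr_fun heq' x.1
      have h2 : (a g).symm x.1 = x.1 := by
        have h3 := x.2
        have h4 : a g x.1 = x.1 := (IntermediateField.mem_fixedField_iff _ _).1 h3 (a g)
          ⟨g, (Finset.mem_filter.1 hg).2, rfl⟩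
        rw [AlgEquiv.symm_apply_eq, h4]
      have h3 : τ ((a g).symm x.1) = σ x.1 := h1
      rw [h2] at h3
      exact h3

open Classical in
/-- If the quotient has the property, then the norm has torsion image. -/
lemma norm_torsion [Fintype G] [IsAlgClosed Ω] (a : G →* (K ≃ₐ[ℂ] K))
    (ha : Function.Injective a) (H : Subgroup G) (h : BlochHolds Ω (quotientField a H))
    (q : ((K →ₐ[ℂ] Ω) →₀ ℤ) ⧸ Rat K Ω) :
    ∃ k : ℕ, k ≠ 0 ∧ k • ∑ g : G with g ∈ H, act a g q = 0 := by
  have hfin := finite_map a H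
  have hfd := finite_quot a H
  induction q using QuotientAddGroup.induction_on with
  | H c =>
    obtain ⟨k, hk, hc⟩ := h (Finsupp.mapDomain (restr (quotientField a H) Ω) c)
    refine ⟨k, hk, ?_⟩
    have h1 := rat_pull (K := K) hc (k • ∑ g : G with g ∈ H, shift (a g) c) (fun σ => by
      rw [Finsupp.smul_apply, Finsupp.smul_apply, sum_shift a ha])
    have h2 : k • ∑ g : G with g ∈ H, act a g (QuotientAddGroup.mk c : _ ⧸ Rat K Ω)
        = QuotientAddGroup.mk (k • ∑ g : G with g ∈ H, shift (a g) c) := by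
      simp only [act_mk]
      rw [← QuotientAddGroup.mk_sum, ← QuotientAddGroup.mk_nsmul]
    rw [h2, QuotientAddGroup.eq_zero_iff]
    exact h1

/-- **Quotients which dominate.** -/
theorem bloch_of_dominated {ι : Type} [Finite G] [IsAlgClosed Ω] (a : G →* (K ≃ₐ[ℂ] K))
    (ha : Function.Injective a) (D : ι → Subgroup G) (hD : Dominated (⊥ : Subgroup G) D)
    (h : ∀ i, BlochHolds Ω (quotientField a (D i))) : BlochHolds Ω K := by
  classical
  have := Fintype.ofFinite G
  have h1 : (1 : MonoidAlgebra ℚ G) ∈ ann (act (Ω := Ω) a) :=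
    one_mem_of_dominated hD (ann (act a)) (ann_mul _) fun i =>
      nA_mem _ _ fun m => norm_torsion a ha (D i) (h i) m
  intro c
  obtain ⟨k, hk, hkc⟩ := torsion_of_one _ h1 (QuotientAddGroup.mk c)
  refine ⟨k, hk, ?_⟩
  rwa [← QuotientAddGroup.mk_nsmul, QuotientAddGroup.eq_zero_iff] at hkc

/-- **The symmetry groups of a variety without the property, all of whose quotients by subgroups of
prime order have it.** -/
theorem structure_of_failure [Finite G] [IsAlgClosed Ω] (a : G →* (K ≃ₐ[ℂ] K))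
    (ha : Function.Injective a) (hne : ¬ BlochHolds Ω K)
    (h : ∀ P : Subgroup G, (Nat.card P).Prime → BlochHolds Ω (quotientField a P)) :
    FixedPointFree G ∧ CyclicSubgroups G := by
  classical
  have := Fintype.ofFinite G
  obtain ⟨k1, -, k2, k3, k4⟩ := structure_of_ideal (ann (act (Ω := Ω) a)) (ann_mul _)
    (fun h1 => hne fun c => by
      obtain ⟨k, hk, hkc⟩ := torsion_of_one _ h1 (QuotientAddGroup.mk c)
      refine ⟨k, hk, ?_⟩
      rwa [← QuotientAddGroup.mk_nsmul, QuotientAddGroup.eq_zero_iff] at hkc)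
    (fun P hP => nA_mem _ _ fun m => norm_torsion a ha P (h P hP) m)
  exact ⟨k1, k2, k3, k4⟩

/-- Faithfulness: distinct automorphisms act differently on zero-cycles. -/
theorem faithful_of_failure [Finite G] [IsAlgClosed Ω] (a : G →* (K ≃ₐ[ℂ] K))
    (ha : Function.Injective a) (hne : ¬ BlochHolds Ω K)
    (h : ∀ P : Subgroup G, (Nat.card P).Prime → BlochHolds Ω (quotientField a P)) (g g' : G)
    (hg : ∀ c : (K →ₐ[ℂ] Ω) →₀ ℤ, ∃ k : ℕ, k ≠ 0 ∧
      k • (Finsupp.mapDomain (fun σ : K →ₐ[ℂ] Ω => σ.comp ((a g).symm : K →ₐ[ℂ] K)) c -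
        Finsupp.mapDomain (fun σ : K →ₐ[ℂ] Ω => σ.comp ((a g').symm : K →ₐ[ℂ] K)) c) ∈ Rat K Ω) :
    g = g' := by
  classical
  have := Fintype.ofFinite G
  obtain ⟨-, k1, -⟩ := structure_of_ideal (ann (act (Ω := Ω) a)) (ann_mul _)
    (fun h1 => hne fun c => by
      obtain ⟨k, hk, hkc⟩ := torsion_of_one _ h1 (QuotientAddGroup.mk c)
      refine ⟨k, hk, ?_⟩
      rwa [← QuotientAddGroup.mk_nsmul, QuotientAddGroup.eq_zero_iff] at hkc)
    (fun P hP => nA_mem _ _ fun m => norm_torsion a ha P (h P hP) m)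
  apply k1
  rw [mem_ann, map_sub, MonoidAlgebra.lift_single, MonoidAlgebra.lift_single, one_smul, one_smul,
    sub_eq_zero]
  refine LinearMap.ext fun v => ?_
  induction v using TensorProduct.induction_on with
  | zero => simp
  | tmul q m =>
    rw [ratRep_tmul, ratRep_tmul, ← sub_eq_zero, ← TensorProduct.tmul_sub]
    obtain ⟨c, rfl⟩ := QuotientAddGroup.mk_surjective m
    obtain ⟨k, hk, hkc⟩ := hg c
    have h1 : k • (act a g (QuotientAddGroup.mk c : ((K →ₐ[ℂ] Ω) →₀ ℤ) ⧸ Rat K Ω)
        - act a g' (QuotientAddGroup.mk c)) = 0 := by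
      rw [act_mk, act_mk, ← QuotientAddGroup.mk_sub, ← QuotientAddGroup.mk_nsmul,
        QuotientAddGroup.eq_zero_iff]
      exact hkc
    have h2 := (tmul_eq_zero_iff _).2 ⟨k, hk, h1⟩
    have h3 : q ⊗ₜ[ℤ] (act a g (QuotientAddGroup.mk c : ((K →ₐ[ℂ] Ω) →₀ ℤ) ⧸ Rat K Ω)
        - act a g' (QuotientAddGroup.mk c)) = q • ((1 : ℚ) ⊗ₜ[ℤ]
          (act a g (QuotientAddGroup.mk c : ((K →ₐ[ℂ] Ω) →₀ ℤ) ⧸ Rat K Ω)
            - act a g' (QuotientAddGroup.mk c))) := by
      rw [TensorProduct.smul_tmul', smul_eq_mul, mul_one]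
    rw [h3, h2, smul_zero]
  | add x y hx hy => rw [map_add, map_add, hx, hy]

end Pool.Agent.U935.BA
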