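import Mathlib
import Pool.Agent.U935.BA.Main
import Pool.Agent.U935.BA.Forms

set_option autoImplicit false

namespace Pool.Agent.U935.BA

open IntermediateField Pool.Agent.X252.GA

/-- Fields below a finitely generated field, of finite index (from `TH466.QG.ess_below`). -/
theorem ess_below {k F K : Type} [Field k] [Field F] [Field K] [Algebra k F] [Algebra k K]
    [Algebra F K] [IsScalarTower k F K] [FiniteDimensional F K] [hK : Algebra.EssFiniteType k K] :
    Algebra.EssFiniteType k F := by
  have hKF : Algebra.IsAlgebraic F K := inferInstance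
  obtain ⟨s, hs⟩ := exists_isTranscendenceBasis k F
  have hfin : Set.Finite s := by
    have h1 : IsTranscendenceBasis k (algebraMap F K ∘ ((↑) : s → F)) := hs.algebraMap_comp
    have h2 : Algebra.trdeg k K < Cardinal.aleph0 := trdeg_lt_aleph0 k K
    have h3 := h1.cardinalMk_eq_trdeg
    rw [← h3] at h2
    exact Cardinal.lt_aleph0_iff_set_finite.1 h2
  let A : IntermediateField k F := adjoin k s
  have hA : Algebra.EssFiniteType k A := by
    rw [essFiniteType_iff]
    exact ⟨hfin.toFinset, by rw [Set.Finite.coe_toFinset]⟩
  have t1 : IsScalarTower A F K := inferInstance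
  have t2 : IsScalarTower k A K := IsScalarTower.of_algebraMap_eq fun x => by
    rw [IsScalarTower.algebraMap_apply k F K, IsScalarTower.algebraMap_apply A F K,
      ← IsScalarTower.algebraMap_apply k A F]
  have hAF : Algebra.IsAlgebraic A F := by
    have h1 := hs.isAlgebraic_field
    rwa [Subtype.range_coe] at h1
  have hAK : Algebra.IsAlgebraic A K := Algebra.IsAlgebraic.trans A F K
  have hAess : Algebra.EssFiniteType A K := Algebra.EssFiniteType.of_comp k A K
  have hAKfin : Module.Finite A K := Algebra.finite_of_essFiniteType_of_isAlgebraic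
  have hAFfin : Module.Finite A F := by
    refine Module.Finite.of_injective
      ((IsScalarTower.toAlgHom A F K).toLinearMap) (algebraMap F K).injective
  have hAFess : Algebra.EssFiniteType A F := inferInstance
  exact Algebra.EssFiniteType.comp k A F

variable {K Ω : Type} [Field K] [Algebra ℂ K] [Field Ω] [Algebra ℂ Ω]

/-- The dimension of the image of a rational map of finite degree. -/
theorem trdeg_down {L : IntermediateField ℂ K} [Algebra.IsAlgebraic L K] :
    Algebra.trdeg ℂ L = Algebra.trdeg ℂ K := by
  obtain ⟨s, hs⟩ := exists_isTranscendenceBasis ℂ L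
  have h1 : IsTranscendenceBasis ℂ (algebraMap L K ∘ ((↑) : s → L)) := hs.algebraMap_comp
  rw [← hs.cardinalMk_eq_trdeg, ← h1.cardinalMk_eq_trdeg]

/-- Quotients by nontrivial subgroups are proper subfields. -/
lemma quotient_ne_top {G : Type} [Group G] (a : G →* (K ≃ₐ[ℂ] K)) (ha : Function.Injective a)
    (P : Subgroup G) (hP : (Nat.card P).Prime) : quotientField a P ≠ ⊤ := by
  intro h
  have h1 : P = ⊥ := by
    rw [Subgroup.eq_bot_iff_forall]
    intro g hg
    apply ha
    rw [map_one]
    ext x
    have hx : x ∈ quotientField a P := by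
      rw [h]
      exact IntermediateField.mem_top
    exact (IntermediateField.mem_fixedField_iff _ _).1 hx (a g) ⟨g, hg, rfl⟩
  rw [h1, Subgroup.card_bot] at hP
  exact Nat.not_prime_one hP

/-- A field without the property, minimal in its family of subfields of finite index. -/
theorem exists_minimal (h0 : ¬ BlochHolds Ω K) (N : ℕ)
    (hN : ∀ L : IntermediateField ℂ K, FiniteDimensional L K → ¬ BlochHolds Ω L →
      Module.finrank L K ≤ N) :
    ∃ L : IntermediateField ℂ K, FiniteDimensional L K ∧ ¬ BlochHolds Ω L ∧
      ∀ F : IntermediateField ℂ L, FiniteDimensional F L → F ≠ ⊤ → BlochHolds Ω F := by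
  let S : Set ℕ := {d | ∃ L : IntermediateField ℂ K, FiniteDimensional L K ∧ ¬ BlochHolds Ω L ∧
    Module.finrank L K = d}
  have hne : S.Nonempty := by
    refine ⟨Module.finrank (⊤ : IntermediateField ℂ K) K, ⊤, ?_, ?_, rfl⟩
    · exact Module.Finite.of_surjective (Algebra.linearMap (⊤ : IntermediateField ℂ K) K)
        fun x => ⟨⟨x, IntermediateField.mem_top⟩, rfl⟩
    · intro h
      exact h0 (h.of_equiv IntermediateField.topEquiv)
  have hbdd : BddAbove S := ⟨N, by
    rintro d ⟨L, h1, h2, rfl⟩
    exact hN L h1 h2⟩
  obtain ⟨L, h1, h2, h3⟩ := Nat.sSup_mem hne hbdd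
  refine ⟨L, h1, h2, fun F hF hF' => ?_⟩
  by_contra hFB
  have hscal : ∀ (x : F) (y : K), ((x : L) : K) * y = ((x : L) : K) * y := fun _ _ => rfl
  let F' : IntermediateField ℂ K := IntermediateField.lift F
  let e : F ≃ₐ[ℂ] F' := IntermediateField.liftAlgEquiv F
  have hfd : FiniteDimensional F K := FiniteDimensional.trans F L K
  have hfr : Module.finrank F K = Module.finrank F L * Module.finrank L K :=
    (Module.finrank_mul_finrank F L K).symm
  have hcomp : (algebraMap F' K).comp (e : F ≃+* F').toRingHom = (RingEquiv.refl K : K →+* K).comp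
      (algebraMap F K) := by
    ext x
    rfl
  have hfd' : FiniteDimensional F' K :=
    Module.Finite.of_equiv_equiv (e : F ≃+* F') (RingEquiv.refl K) hcomp
  have hfr' : Module.finrank F K = Module.finrank F' K :=
    Algebra.finrank_eq_of_equiv_equiv (e : F ≃+* F') (RingEquiv.refl K) hcomp
  have hB : ¬ BlochHolds Ω F' := fun h => hFB (h.of_equiv e.symm)
  have hmem : Module.finrank F' K ∈ S := ⟨F', hfd', hB, rfl⟩
  have hle := le_csSup hbdd hmem
  rw [← h3, ← hfr', hfr] at hle
  have hpos : 0 < Module.finrank L K := Module.finrank_pos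
  have hpos' : 0 < Module.finrank F L := Module.finrank_pos
  have hone : Module.finrank F L = 1 := by
    by_contra hcon
    have h2' : 2 ≤ Module.finrank F L := by omega
    nlinarith
  exact hF' ((IntermediateField.finrank_eq_one_iff_eq_top).1 hone)

/-- The structure of the symmetry groups of the minimal field. -/
theorem minimal_groups [IsAlgClosed Ω] (h0 : ¬ BlochHolds Ω K)
    (hmin : ∀ F : IntermediateField ℂ K, FiniteDimensional F K → F ≠ ⊤ → BlochHolds Ω F)
    (G : Type) [Group G] [Finite G] (a : G →* (K ≃ₐ[ℂ] K)) (ha : Function.Injective a) :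
    FixedPointFree G ∧ CyclicSubgroups G :=
  structure_of_failure a ha h0 fun P hP => hmin _ (finite_quot a P) (quotient_ne_top a ha P hP)

end Pool.Agent.U935.BA
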