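import Mathlib
import Pool.Agent.U935.BA.Minimal
import Pool.Agent.U935.BA.Ruled

set_option autoImplicit false

namespace Pool.Agent.U935.BA

open TensorProduct FF Pool.Agent.W602.GT Pool.Agent.N162.BC Pool.Agent.X252.GA Pool.Agent.U1.BL

/-- The group `Γ` has an irreducible rational representation with a nonzero vector fixed by `H`, and
without nonzero vectors fixed by a subgroup properly containing `H`. -/
def TopFixed (Γ : Type) [Group Γ] (H : Subgroup Γ) : Prop :=
  ∃ (V : Type) (_ : AddCommGroup V) (_ : Module ℚ V) (ρ : Γ →* Module.End ℚ V), Irred ρ ∧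
    (∃ v : V, v ≠ 0 ∧ ∀ h ∈ H, ρ h v = v) ∧
    ∀ D : Subgroup Γ, H < D → ∀ v : V, (∀ d ∈ D, ρ d v = v) → v = 0

section

variable {G M : Type} [Group G] [AddCommGroup M]

open Classical in
lemma torsion_of_nA [Fintype G] (ρ : G →* AddMonoid.End M) (H : Subgroup G) (h : nA H ∈ ann ρ)
    (m : M) : ∃ k : ℕ, k ≠ 0 ∧ k • ∑ g : G with g ∈ H, ρ g m = 0 := by
  rw [mem_ann] at h
  unfold nA at h
  rw [map_sum] at h
  rw [← tmul_eq_zero_iff]
  have h1 := LinearMap.congr_fun h ((1 : ℚ) ⊗ₜ[ℤ] m)
  rw [LinearMap.sum_apply] at h1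
  simp only [MonoidAlgebra.lift_single, one_smul, ratRep_tmul] at h1
  rw [← TensorProduct.tmul_sum] at h1
  exact h1

end

variable {G K Ω : Type} [Group G] [Field K] [Algebra ℂ K] [Field Ω] [Algebra ℂ Ω]

open Classical in
/-- The direct image of the sum over the subgroup. -/
lemma push_sum_shift [Fintype G] (a : G →* (K ≃ₐ[ℂ] K)) (H : Subgroup G)
    (c : (K →ₐ[ℂ] Ω) →₀ ℤ) :
    (∑ g : G with g ∈ H, shift (a g) c).mapDomain (restr (quotientField a H) Ω)
      = (Finset.univ.filter fun g : G => g ∈ H).card • c.mapDomain (restr (quotientField a H) Ω) := by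
  have := finite_quot a H
  have hmap : (∑ g : G with g ∈ H, shift (a g) c).mapDomain (restr (quotientField a H) Ω)
      = ∑ g : G with g ∈ H, (shift (a g) c).mapDomain (restr (quotientField a H) Ω) :=
    map_sum (Finsupp.mapDomain.addMonoidHom (restr (quotientField a H) Ω)) _ _
  rw [hmap]
  rw [Finset.sum_congr rfl (g := fun _ => c.mapDomain (restr (quotientField a H) Ω)),
    Finset.sum_const]
  intro g hg
  rw [shift_apply, ← Finsupp.mapDomain_comp]
  congr 1
  funext σ
  ext x
  have h2 : (a g).symm x.1 = x.1 := by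
    have h4 : a g x.1 = x.1 := (IntermediateField.mem_fixedField_iff _ _).1 x.2 (a g)
      ⟨g, (Finset.mem_filter.1 hg).2, rfl⟩
    rw [AlgEquiv.symm_apply_eq, h4]
  show σ ((a g).symm x.1) = σ x.1
  rw [h2]

/-- **Quotients which dominate a quotient.** -/
theorem bloch_of_dominated_quot {ι : Type} [Finite G] [IsAlgClosed Ω] (a : G →* (K ≃ₐ[ℂ] K))
    (ha : Function.Injective a) (H : Subgroup G) (D : ι → Subgroup G) (hD : Dominated H D)
    (h : ∀ i, BlochHolds Ω (quotientField a (D i))) : BlochHolds Ω (quotientField a H) := by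
  classical
  have := Fintype.ofFinite G
  have hfd := finite_quot a H
  have h1 : nA H ∈ ann (act (Ω := Ω) a) :=
    mem_of_dominated hD (ann (act a)) (ann_mul _) fun i =>
      nA_mem _ _ fun m => norm_torsion a ha (D i) (h i) m
  intro c
  obtain ⟨c', hc'⟩ := exists_section (K := K) c
  obtain ⟨k, hk, hkc⟩ := torsion_of_nA _ H h1 (QuotientAddGroup.mk c')
  have h2 : k • ∑ g : G with g ∈ H, act a g (QuotientAddGroup.mk c' : _ ⧸ Rat K Ω)
      = QuotientAddGroup.mk (k • ∑ g : G with g ∈ H, shift (a g) c') := by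
    simp only [act_mk]
    rw [← QuotientAddGroup.mk_sum, ← QuotientAddGroup.mk_nsmul]
  rw [h2, QuotientAddGroup.eq_zero_iff] at hkc
  have h3 := rat_push (K := quotientField a H) hkc
  rw [Finsupp.mapDomain_smul, push_sum_shift, hc', smul_smul] at h3
  refine ⟨_, mul_ne_zero hk ?_, h3⟩
  rw [Finset.card_ne_zero]
  exact ⟨1, Finset.mem_filter.2 ⟨Finset.mem_univ _, H.one_mem⟩⟩

/-- Subfields of a field which embeds in `K`. -/
theorem bloch_sub {L : Type} [Field L] [Algebra ℂ L]
    (hmin : ∀ F : IntermediateField ℂ L, FiniteDimensional F L → F ≠ ⊤ → BlochHolds Ω F)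
    (ψ : L →ₐ[ℂ] K) (F' : IntermediateField ℂ K) (hle : F' ≤ ψ.fieldRange)
    (hfin : FiniteDimensional F' K) (hne : F' ≠ ψ.fieldRange) : BlochHolds Ω F' := by
  obtain ⟨F, hF⟩ : ∃ F : IntermediateField ℂ L, F = F'.comap ψ := ⟨_, rfl⟩
  have hmap : F.map ψ = F' := by
    apply le_antisymm
    · rintro _ ⟨x, hx, rfl⟩
      rw [hF] at hx
      exact hx
    · intro y hy
      obtain ⟨x, rfl⟩ := hle hy
      refine ⟨x, ?_, rfl⟩
      rw [hF]
      exact hy
  let e : F ≃ₐ[ℂ] F.map ψ := IntermediateField.equivMap F ψ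
  let _ : Algebra L K := ψ.toRingHom.toAlgebra
  have hfin' : FiniteDimensional (F.map ψ) K := by
    rw [hmap]
    exact hfin
  have tow : IsScalarTower F L K := inferInstance
  have hcomp : (algebraMap F K).comp ((e.symm : F.map ψ ≃+* F)).toRingHom
      = (RingEquiv.refl K : K →+* K).comp (algebraMap (F.map ψ) K) := by
    ext x
    obtain ⟨y, rfl⟩ := e.surjective x
    show algebraMap F K (e.symm (e y)) = ((e y : F.map ψ) : K)
    rw [AlgEquiv.symm_apply_apply]
    rfl
  have hFK : FiniteDimensional F K :=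
    Module.Finite.of_equiv_equiv (e.symm : F.map ψ ≃+* F) (RingEquiv.refl K) hcomp
  have hFL : FiniteDimensional F L :=
    Module.Finite.of_injective ((IsScalarTower.toAlgHom F L K).toLinearMap) ψ.toRingHom.injective
  have hFtop : F ≠ ⊤ := by
    rintro h
    apply hne
    rw [← hmap, h, AlgHom.fieldRange_eq_map]
  have hB := (hmin F hFL hFtop).of_equiv e
  rwa [hmap] at hB

/-- Galois correspondence for finite groups of automorphisms. -/
lemma fixing_fixed (S : Subgroup (K ≃ₐ[ℂ] K)) [Finite S] :
    IntermediateField.fixingSubgroup (IntermediateField.fixedField S) = S := by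
  apply le_antisymm
  · intro f hf
    rw [IntermediateField.mem_fixingSubgroup_iff] at hf
    obtain ⟨g, hg, hfg⟩ := exists_of_restr S (AlgHom.id ℂ K) (f : K →ₐ[ℂ] K)
      (fun x hx => (hf x hx).symm)
    have : f = g := by
      ext x
      exact AlgHom.congr_fun hfg x
    rwa [this]
  · intro f hf
    rw [IntermediateField.mem_fixingSubgroup_iff]
    intro x hx
    exact (IntermediateField.mem_fixedField_iff _ _).1 hx f hf

/-- The intermediate coverings of a minimal field. -/
theorem minimal_relative {L : Type} [Field L] [Algebra ℂ L] [IsAlgClosed Ω]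
    (h0 : ¬ BlochHolds Ω L)
    (hmin : ∀ F : IntermediateField ℂ L, FiniteDimensional F L → F ≠ ⊤ → BlochHolds Ω F)
    [Finite G] (a : G →* (K ≃ₐ[ℂ] K)) (ha : Function.Injective a) (H : Subgroup G)
    (e : L ≃ₐ[ℂ] quotientField a H) : TopFixed G H := by
  by_contra hT
  have hdom : Dominated H (fun D : {D : Subgroup G // H < D} => D.1) := by
    intro V _ _ ρ hρ hv
    by_contra hcon
    push Not at hcon
    apply hT
    refine ⟨V, _, _, ρ, hρ, hv, fun D hD v hv' => ?_⟩
    by_contra hv0
    obtain ⟨d, hd, hd'⟩ := hcon ⟨D, hD⟩ v hv0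
    exact hd' (hv' d hd)
  apply h0
  refine BlochHolds.of_equiv e.symm (bloch_of_dominated_quot a ha H _ hdom fun D => ?_)
  have hD := D.2
  have hfr : ((quotientField a H).val.comp (e : L →ₐ[ℂ] quotientField a H)).fieldRange
      = quotientField a H := by
    apply le_antisymm
    · rintro _ ⟨x, rfl⟩
      exact (e x).2
    · intro y hy
      exact ⟨e.symm ⟨y, hy⟩, by
        show ((e (e.symm ⟨y, hy⟩) : quotientField a H) : K) = y
        rw [AlgEquiv.apply_symm_apply]⟩
  refine bloch_sub hmin ((quotientField a H).val.comp (e : L →ₐ[ℂ] quotientField a H))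
    (quotientField a D.1) ?_ (finite_quot a D.1) ?_
  · rw [hfr]
    intro x hx
    rw [quotientField, IntermediateField.mem_fixedField_iff] at hx ⊢
    intro f hf
    exact hx f (Subgroup.map_mono hD.le hf)
  · rw [hfr]
    intro heq
    have hfin1 := finite_map a D.1
    have hfin2 := finite_map a H
    have h2 : IntermediateField.fixingSubgroup (quotientField a D.1)
        = IntermediateField.fixingSubgroup (quotientField a H) := by rw [heq]
    have h3 : ∀ S : Subgroup G, IntermediateField.fixingSubgroup (quotientField a S) = S.map a := by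
      intro S
      have := finite_map a S
      exact fixing_fixed (S.map a)
    rw [h3, h3] at h2
    exact hD.ne (Subgroup.map_injective ha h2).symm

end Pool.Agent.U935.BA
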