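import Mathlib
import Pool.Agent.U935.BA.Relative

set_option autoImplicit false

namespace Pool.Agent.U935.BA

open Pool.Agent.X252.GA

/-- The symmetries and the coverings of the variety with the function field `L` are restricted: the
finite groups of birational automorphisms have fixed point free irreducible rational representations,
their subgroups of order `p q` and their commutative subgroups are cyclic, and they have at most one
involution; and if the variety is the quotient by `H` of a variety on which the finite group `Γ` acts,
then `Γ` has an irreducible rational representation with a nonzero vector fixed by `H`, and none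
fixed by a larger subgroup. -/
def RigidSymmetries (L : Type) [Field L] [Algebra ℂ L] : Prop :=
  (∀ (G : Type) [Group G] [Finite G] (a : G →* (L ≃ₐ[ℂ] L)), Function.Injective a →
    FixedPointFree G ∧ CyclicSubgroups G) ∧
  ∀ (E : Type) [Field E] [Algebra ℂ E] (Γ : Type) [Group Γ] [Finite Γ]
    (a : Γ →* (E ≃ₐ[ℂ] E)), Function.Injective a → ∀ H : Subgroup Γ,
    Nonempty (L ≃ₐ[ℂ] quotientField a H) → TopFixed Γ H

theorem rigid_of_minimal {L Ω : Type} [Field L] [Algebra ℂ L] [Field Ω] [Algebra ℂ Ω]
    [IsAlgClosed Ω] (h0 : ¬ BlochHolds Ω L)
    (hmin : ∀ F : IntermediateField ℂ L, FiniteDimensional F L → F ≠ ⊤ → BlochHolds Ω F) :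
    RigidSymmetries L :=
  ⟨fun G _ _ a ha => minimal_groups h0 hmin G a ha,
    fun _ _ _ _ _ _ a ha H e => minimal_relative h0 hmin a ha H e.some⟩

end Pool.Agent.U935.BA
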